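import Pool.Agent.helper53.ORT.Spec

set_option autoImplicit false

namespace Pool.Agent.ORT

open Module Pool.Agent.GS

theorem EB (kdb : KDB_stmt) (e4 : E4_stmt) (e5 : E5_stmt) (e6 : E6_stmt) : EB_stmt := by
  intro F V _ _ _ _ _ B hch hB hn k hk r hr hr5 hrF hkr hk1 y hy
  have hr2 : r ≠ 2 := by omega
  obtain ⟨K, iK, iA, iF, iD, β, σ, j, hD, hm, h7⟩ := kdb B hch hB k hk r hr hr2 hrF hkr hk1
  rcases hy with hy | hy
  · obtain ⟨h1, h2⟩ := e5 B hch hB hn k hk r hr hr2 hkr β σ j hD y hy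
    rcases Nat.even_or_odd (finrank F K) with he | ho
    · obtain ⟨h, hh, hg, hns⟩ := h1 he
      exact ⟨h, hh, hg.mono (by omega), hns⟩
    · by_cases hbig : 2 * finrank F K + 3 ≤ r
      · obtain ⟨h, hh, hg, hns⟩ := h2
        exact ⟨h, hh, hg.mono (by omega), hns⟩
      · have hodd : Odd r := hr.odd_of_ne_two hr2
        obtain ⟨a, ha⟩ := hodd
        obtain ⟨b, hb⟩ := ho
        have hr1 : r = 2 * finrank F K + 1 := by omega
        have hm3 : 3 ≤ finrank F K := by omega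
        obtain ⟨h, hh, hg, hns⟩ := e6 B hch hB k hk r hr hr2 hkr β σ j hD
          (fun hc h3 => h7 (by rw [hr1, h3]) hc h3) hm3 ⟨b, hb⟩ y hy
        exact ⟨h, hh, hg.mono (by omega), hns⟩
  · obtain ⟨h, hh, hg, hns⟩ := e4 B hch hB hn k hk r hr hr2 hkr β σ j hD y hy
    exact ⟨h, hh, hg.mono (by omega), hns⟩

end Pool.Agent.ORT
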