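import Pool.Agent.helper53.ORT.Spec

set_option autoImplicit false

namespace Pool.Agent.ORT

open Module Pool.Agent.GS

theorem PRO : PRO_stmt := by
  intro F V _ _ _ _ _ B r hr hdvd
  have hV : Finite V := Module.finite_of_finite F
  have hP : Finite (Om B) := inferInstance
  have h1 : r ∣ Nat.card (Om B) :=
    hdvd.trans (Subgroup.card_quotient_dvd_card (Subgroup.center (Om B)))
  have hf : Fact r.Prime := ⟨hr⟩
  obtain ⟨x, hx⟩ := exists_prime_orderOf_dvd_card' r h1
  refine ⟨x, x.2, ?_, ?_⟩
  · intro h
    have h2 : x = 1 := Subtype.ext h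
    rw [h2, orderOf_one] at hx
    exact hr.one_lt.ne hx
  · have h3 : x ^ r = 1 := by
      rw [← hx]
      exact pow_orderOf_eq_one x
    have h4 := congrArg Subtype.val h3
    rw [Subgroup.coe_pow, Subgroup.coe_one] at h4
    exact h4

end Pool.Agent.ORT
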